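import Mathlib
import Pool.Agent.R232.CR6

/-!
# Graphs with three eigenvalues have unbounded coherent rank (MP_ce2158_co)

For every `N` there is a connected graph with exactly three distinct adjacency eigenvalues whose
coherent closure (the smallest algebra of complex matrices that contains the adjacency matrix, the
identity and the all-ones matrix and is closed under transposition and the entrywise product) has
dimension at least `N`.

Construction (of Wallis / Fon-Der-Flaass type).  Let `w = 4 ^ n`.  Take `4w - 1` copies of an
`F2`-space `V` with `16 w` elements (indexed by the nonzero functionals `i` of a space `V2` with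
`4w` elements) and `4w + 5` copies of `V2`.  In the dual of `V` choose `4w - 2` pairwise disjoint
lines (two-dimensional subspaces); the `4w + 5` nonzero functionals not covered by them index the
copies of `V2`.  At each copy `i` of `V` enumerate the lines by the other copies `j ≠ i` of `V`.
Points of two different copies `i`, `j` of `V` are adjacent iff their values under the two lines
agree; a point `v` of copy `i` of `V` and a point `w` of the copy `β` of `V2` are adjacent iff
`β v = i w`; points of two different copies of `V2` are always adjacent.  Then
`A² = (4w)² I + 2w(4w+1) u uᵀ` with `u = 1` on the copies of `V` and `u = 2` on the copies of `V2`.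
Inside a copy of `V` the numbers of common neighbours of the first kind are `4w` times the number
of chosen lines inside a hyperplane, and these numbers can be made to take `n + 1` values.
-/

open Pool.Agent.R232.CR

namespace Pool.Agent.Results.MP_ce2158_co.UnboundedCoherentRank

/-- The coherent rank of a graph: the dimension of the coherent closure of its adjacency matrix. -/
noncomputable def coherentRank {Q : Type} [Fintype Q] [DecidableEq Q] (G : SimpleGraph Q)
    [DecidableRel G.Adj] : ℕ :=
  Module.finrank ℂ (coherentClosure (G.adjMatrix ℂ))

/-- **Q1 has a positive answer**: for every `N` there is a connected graph with exactly three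
distinct eigenvalues whose coherent rank is at least `N`. -/
theorem result : ∀ N : ℕ, ∃ (Q : Type) (_ : Fintype Q) (_ : DecidableEq Q) (G : SimpleGraph Q)
    (_ : DecidableRel G.Adj), G.Connected ∧ (spectrum ℂ (G.adjMatrix ℂ)).ncard = 3 ∧
      N ≤ coherentRank G := by
  intro N
  have hw : 1 ≤ 4 ^ N := Nat.one_le_pow _ _ (by norm_num)
  have h := spread_ph N
  have h2 : Fintype.card (SS (N + 1)) = 4 * 4 ^ N := by
    simp only [Fintype.card_prod, Fintype.card_fun, ZMod.card, Fintype.card_fin]
    rw [← mul_pow, pow_succ]; norm_num; ring
  obtain ⟨τ, hτ⟩ := exists_enum h h2 hw
  refine ⟨Vtx (SS (N + 1)) (ph N), _, Classical.decEq _, Gr (ph N) τ, Classical.decRel _,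
    final (Classical.decEq _) (Classical.decRel _) h h2 hτ hw N
      (fun j => tv N (Fin.castSucc j)) ?_⟩
  intro j j' hjj
  simp only [tv_value, Fin.val_castSucc] at hjj
  have h3 : ((j : ℕ) : ℂ) = ((j' : ℕ) : ℂ) := by linear_combination -hjj / 2
  exact Fin.ext (by exact_mod_cast h3)

end Pool.Agent.Results.MP_ce2158_co.UnboundedCoherentRank
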